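import Pool.Agent.R952.ExactPolygon
import Pool.Agent.R244.CP.P_SD
import Pool.Agent.R244.CP.P_GRIDX
import Pool.Agent.R244.CP.P_GRIDQ
import Pool.Agent.R244.CP.P_PL
import Pool.Agent.R244.CP.P_SUBG
import Pool.Agent.R244.CP.P_NCFIN
import Pool.Agent.R244.CP.P_KEYB
import Pool.Agent.R244.CP.P_PROX

/-!
MP_91555f_an, Q1 (full positive answer): every compact null set of the plane is mapped by a
contraction, moving no point by more than `ε`, into a finite union of line segments.  The same holds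
for every compact set of measure less than `ε² / 64`.
-/

set_option autoImplicit false

namespace Pool.Agent.Results.MP_91555f_an.IntoSegments

open MeasureTheory Set Metric
open Pool.Agent.R244.CP (E2)

/-- First part: Q1.  Second part: the quantitative form, for compact sets of small measure. -/
theorem result :
    (∀ C : Set E2, IsCompact C → volume C = 0 → ∀ ε : ℝ, 0 < ε →
      ∃ f : E2 → E2, LipschitzWith 1 f ∧ (∀ x, ‖f x - x‖ ≤ ε) ∧
        ∃ S : Finset (E2 × E2), f '' C ⊆ ⋃ s ∈ S, segment ℝ s.1 s.2) ∧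
    (∀ C : Set E2, IsCompact C → ∀ ε : ℝ, 0 < ε → volume C < ENNReal.ofReal (ε ^ 2 / 64) →
      ∃ f : E2 → E2, LipschitzWith 1 f ∧ (∀ x, ‖f x - x‖ ≤ ε) ∧
        ∃ S : Finset (E2 × E2), f '' C ⊆ ⋃ s ∈ S, segment ℝ s.1 s.2) := by
  open Pool.Agent.R244.CP in
  have hN : S_NCFIN := t_NCFIN t_SD t_GRIDX t_GRIDQ
  have hK : S_KEYB := t_KEYB hN t_SUBG t_PL
  have hPOLY := Pool.Agent.R952.ExactPolygon.t_POLY2 (t_PROX t_SUBG) t_PL
  have key : ∀ C : Set E2, IsCompact C → ∀ ε : ℝ, 0 < ε →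
      volume C < ENNReal.ofReal (ε ^ 2 / 64) →
      ∃ f : E2 → E2, LipschitzWith 1 f ∧ (∀ x, ‖f x - x‖ ≤ ε) ∧
        ∃ S : Finset (E2 × E2), f '' C ⊆ ⋃ s ∈ S, segment ℝ s.1 s.2 := by
    intro C hC ε hε hvol
    obtain ⟨W, hCW, hWo, hWv⟩ := Set.exists_isOpen_lt_of_lt C _ hvol
    have hWtop : volume W < ⊤ := lt_trans hWv ENNReal.ofReal_lt_top
    have hW16 : 16 * (volume W).toReal ≤ (ε / 2) ^ 2 := by
      have h1 : (volume W).toReal ≤ ε ^ 2 / 64 := by
        have := ENNReal.toReal_mono ENNReal.ofReal_ne_top hWv.le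
        rwa [ENNReal.toReal_ofReal (by positivity)] at this
      nlinarith
    obtain ⟨J, hJne, hJb, hJnc⟩ := hK C W hC hWo hCW hWtop (ε / 2) (by positivity) hW16
    obtain ⟨b, Ψ, Z, hCol, -, hfib, hcon⟩ := hPOLY J (2 * (ε / 2)) hJne (by positivity) hJb
    obtain ⟨hP1, hPd, -, -, -, -⟩ := hCol
    obtain ⟨R, hR⟩ := (hC.image hP1.continuous).isBounded.subset_closedBall (0 : E2)
    refine ⟨Ψ, hP1, fun x => (hPd x).trans (le_of_eq (by ring)), ?_⟩
    refine (Pool.Agent.R952.ExactPolygon.cov_sing J b R).mono ?_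
    rintro _ ⟨x, hx, rfl⟩
    refine ⟨by simpa using hR ⟨x, hx, rfl⟩, ?_⟩
    rcases hfib x with ⟨j, hj, hxj, hjm⟩ | hs
    · exfalso
      refine hJnc x hx ?_
      rw [hxj]
      exact hcon _ j hj hjm
    · exact hs
  exact ⟨fun C hC hC0 ε hε => key C hC ε hε (by rw [hC0]; exact ENNReal.ofReal_pos.2 (by positivity)),
    key⟩

end Pool.Agent.Results.MP_91555f_an.IntoSegments
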